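import Mathlib

namespace Pool.Agent.Results.MP_06621a_co.Max

/-- The distinct non-empty palindromes that are scattered subwords of `w`. -/
def Pal {A : Type} [DecidableEq A] (w : List A) : Finset (List A) :=
  w.sublists.toFinset.filter (fun u => u ≠ [] ∧ u.reverse = u)

/-- The number of distinct non-empty palindromic scattered subwords of `w`. -/
def SP {A : Type} [DecidableEq A] (w : List A) : ℕ := (Pal w).card

def M (n : ℕ) : ℕ := if n % 2 = 1 then 3 * 2 ^ ((n + 1) / 2 - 1) - 2 else 2 ^ (n / 2 + 1) - 2

def h : ℕ → ℕ
  | 0 => 1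
  | 1 => 2
  | 2 => 3
  | t + 3 => 2 * h (t + 1)

lemma h_closed : ∀ m, h (2 * m + 1) = 2 ^ (m + 1) ∧ h (2 * m + 2) = 3 * 2 ^ m
  | 0 => by simp [h]
  | m + 1 => by
    obtain ⟨a, b⟩ := h_closed m
    constructor
    · rw [show 2 * (m + 1) + 1 = 2 * m + 3 by ring, h, a]; ring
    · rw [show 2 * (m + 1) + 2 = (2 * m + 1) + 3 by ring, h, b]; ring

lemma M_eq (n : ℕ) : M n + 2 = h (n + 1) := by
  unfold M
  obtain ⟨m, rfl | rfl⟩ := Nat.even_or_odd' n
  · rw [if_neg (by omega), (h_closed m).1, show 2 * m / 2 = m by omega]
    have : 2 ≤ 2 ^ (m + 1) := by rw [pow_succ]; have := Nat.one_le_two_pow (n := m); omega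
    omega
  · rw [if_pos (by omega), (h_closed m).2, show (2 * m + 1 + 1) / 2 - 1 = m by omega]
    have := Nat.one_le_two_pow (n := m)
    omega

lemma h_step : ∀ t, h t < h (t + 1) ∧ 2 * h t ≤ h (t + 2) ∧ 2 * h (t + 1) ≤ h (t + 2) + h t
  | 0 => by simp [h]
  | 1 => by simp [h]
  | 2 => by simp [h]
  | t + 3 => by
    have := h_step (t + 1)
    simp only [h] at this ⊢
    omega

lemma h_mono : Monotone h := monotone_nat_of_le_succ fun t => (h_step t).1.le

def U (n i : ℕ) : ℕ := if 2 * i < n then h (n - 1 - 2 * i) else 0

lemma U_anti (n : ℕ) : Antitone (U n) := by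
  intro i j hij
  unfold U
  split_ifs with h1 h2 h2
  · exact h_mono (by omega)
  · omega
  · omega
  · omega

lemma key1 (n i j : ℕ) (hij : i ≤ j) (hn : i + j < n) :
    2 * h (n - 1 - i - j) ≤ U n i + U n j ∧
      (i + j + 1 = n → i + 2 ≤ j → 2 * h (n - 1 - i - j) < U n i + U n j) := by
  constructor
  · unfold U
    rw [if_pos (by omega)]
    by_cases d0 : j = i
    · subst d0
      rw [if_pos (by omega), show n - 1 - j - j = n - 1 - 2 * j by omega]
      omega
    by_cases d1 : j = i + 1
    · subst d1
      by_cases a2 : 2 * (i + 1) < n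
      · rw [if_pos a2]
        have := (h_step (n - 1 - 2 * (i + 1))).2.2
        rw [show n - 1 - 2 * (i + 1) + 1 = n - 1 - i - (i + 1) by omega,
          show n - 1 - 2 * (i + 1) + 2 = n - 1 - 2 * i by omega] at this
        exact this
      · rw [if_neg a2, show n - 1 - i - (i + 1) = 0 by omega, show n - 1 - 2 * i = 1 by omega]
        simp [h]
    have h1 := (h_step (n - 1 - i - j)).2.1
    have h2 : h (n - 1 - i - j + 2) ≤ h (n - 1 - 2 * i) := h_mono (by omega)
    omega
  · intro e1 e2
    unfold U
    rw [if_pos (by omega), show n - 1 - i - j = 0 by omega]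
    have h2 : h 2 ≤ h (n - 1 - 2 * i) := h_mono (by omega)
    simp only [h] at h2 ⊢
    omega

lemma key (n i j : ℕ) (hn : i + j < n) :
    2 * h (n - 1 - i - j) ≤ U n i + U n j ∧
      (i + j + 1 = n → (i + 2 ≤ j ∨ j + 2 ≤ i) → 2 * h (n - 1 - i - j) < U n i + U n j) := by
  rcases le_total i j with hij | hij
  · exact ⟨(key1 n i j hij hn).1, fun a b => (key1 n i j hij hn).2 a (by omega)⟩
  · have := key1 n j i hij (by omega)
    rw [show n - 1 - j - i = n - 1 - i - j by omega, add_comm (U n j)] at this
    exact ⟨this.1, fun a b => this.2 (by omega) (by omega)⟩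

lemma sum_le (f : ℕ → ℕ) (hf : Antitone f) (S : Finset ℕ) :
    ∑ i ∈ S, f i ≤ ∑ i ∈ Finset.range S.card, f i := by
  induction S using Finset.induction_on_max with
  | empty => simp
  | insert a S ha ih =>
    have hn : a ∉ S := fun h => lt_irrefl _ (ha a h)
    rw [Finset.sum_insert hn, Finset.card_insert_of_notMem hn, Finset.sum_range_succ]
    have : S.card ≤ a := by
      simpa using Finset.card_le_card (show S ⊆ Finset.range a from
        fun x hx => Finset.mem_range.2 (ha x hx))
    have := hf this
    omega

lemma T_le : ∀ n q, ∑ i ∈ Finset.range q, U n i + 2 ≤ h (n + 1) ∧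
    (2 * q < n → ∑ i ∈ Finset.range q, U n i + 2 < h (n + 1))
  | n, 0 => by
    have h1 : h 1 ≤ h (n + 1) := h_mono (by omega)
    refine ⟨by simpa [h] using h1, fun hn => ?_⟩
    have h2 : h 2 ≤ h (n + 1) := h_mono (by omega)
    simp only [h] at h2
    simp only [Finset.range_zero, Finset.sum_empty]
    omega
  | 0, q + 1 => by simp [U, h]
  | 1, q + 1 => by
    rw [Finset.sum_range_succ']
    simp [U, h]
  | n + 2, q + 1 => by
    have := T_le n q
    rw [Finset.sum_range_succ']
    have e : ∀ i, U (n + 2) (i + 1) = U n i := by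
      intro i
      unfold U
      rw [show n + 2 - 1 - 2 * (i + 1) = n - 1 - 2 * i by omega]
      simp only [show 2 * (i + 1) < n + 2 ↔ 2 * i < n by omega]
    simp only [e]
    have e0 : U (n + 2) 0 = h (n + 1) := by simp [U]
    rw [e0, show n + 2 + 1 = n + 3 by ring, h]
    omega

variable {A : Type} [DecidableEq A]

lemma mem_Pal {w u : List A} : u ∈ Pal w ↔ u.Sublist w ∧ u ≠ [] ∧ u.reverse = u := by
  simp [Pal]

omit [DecidableEq A] in
lemma sub_cons {c : A} {u w2 : List A} : ∀ {w1 : List A}, c ∉ w1 →
    (c :: u).Sublist (w1 ++ c :: w2) → u.Sublist w2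
  | [], _, h => by simpa using h
  | b :: t, hc, h => by
    simp only [List.mem_cons, not_or] at hc
    rw [List.cons_append, List.sublist_cons_iff] at h
    rcases h with h | ⟨r, hr, _⟩
    · exact sub_cons hc.2 h
    · exact absurd (List.cons.inj hr).1 hc.1

omit [DecidableEq A] in
lemma pal_shape {c : A} {u : List A} (h : (c :: u).reverse = c :: u) :
    u = [] ∨ ∃ v, u = v ++ [c] ∧ v.reverse = v := by
  rcases List.eq_nil_or_concat u with rfl | ⟨v, b, rfl⟩
  · exact Or.inl rfl
  · right
    simp only [List.concat_eq_append, List.reverse_cons, List.reverse_append, List.reverse_nil,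
      List.nil_append, List.cons_append, List.cons.injEq] at h
    obtain ⟨rfl, h⟩ := h
    exact ⟨v, by simp, List.append_cancel_right h⟩

lemma letter (w : List A) (ih : ∀ v : List A, v.length < w.length → SP v + 2 ≤ h (v.length + 1))
    (c : A) (hc : c ∈ w) : ∃ i j, i + j < w.length ∧ w[i]? = some c ∧
      w[w.length - 1 - j]? = some c ∧
      ((Pal w).filter (fun u => u.head? = some c)).card ≤ h (w.length - 1 - i - j) := by
  obtain ⟨w1, w2, rfl, h1⟩ := List.eq_append_cons_of_mem hc
  by_cases h2 : c ∈ w2
  · obtain ⟨r3, rm, e, h3⟩ := List.eq_append_cons_of_mem (List.mem_reverse.2 h2)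
    have e2 : w2 = rm.reverse ++ c :: r3.reverse := by
      have := congrArg List.reverse e
      simpa using this
    subst e2
    refine ⟨w1.length, r3.length, by simp; omega, by simp, ?_, ?_⟩
    · have : (w1 ++ c :: (rm.reverse ++ c :: r3.reverse)).length - 1 - r3.length =
          (w1 ++ c :: rm.reverse).length := by simp; omega
      rw [this, show w1 ++ c :: (rm.reverse ++ c :: r3.reverse) =
        (w1 ++ c :: rm.reverse) ++ c :: r3.reverse by simp]
      simp
    · have hl : (w1 ++ c :: (rm.reverse ++ c :: r3.reverse)).length - 1 - w1.length - r3.length =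
          rm.reverse.length + 1 := by simp; omega
      rw [hl]
      refine le_trans ?_ (ih rm.reverse (by simp; omega))
      have hsub : (Pal (w1 ++ c :: (rm.reverse ++ c :: r3.reverse))).filter
          (fun u => u.head? = some c) ⊆
          insert [c] (insert [c, c] ((Pal rm.reverse).image (fun v => c :: (v ++ [c])))) := by
        intro u hu
        rw [Finset.mem_filter, mem_Pal] at hu
        obtain ⟨⟨s1, _, s3⟩, s4⟩ := hu
        obtain ⟨u, rfl⟩ := List.head?_eq_some_iff.1 s4
        have s5 := sub_cons h1 s1
        rcases pal_shape s3 with rfl | ⟨v, rfl, hv⟩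
        · simp
        · have s6 : v.Sublist rm.reverse := by
            have := s5.reverse
            simp only [List.reverse_append, List.reverse_cons, List.reverse_nil, List.nil_append,
              List.reverse_reverse, List.cons_append, List.append_assoc] at this
            have := (sub_cons h3 this).reverse
            simpa using this
          by_cases hv0 : v = []
          · subst hv0; simp
          · refine Finset.mem_insert_of_mem (Finset.mem_insert_of_mem ?_)
            exact Finset.mem_image.2 ⟨v, mem_Pal.2 ⟨s6, hv0, hv⟩, rfl⟩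
      refine (Finset.card_le_card hsub).trans ?_
      refine (Finset.card_insert_le _ _).trans ?_
      have a1 := Finset.card_insert_le [c, c] ((Pal rm.reverse).image (fun v => c :: (v ++ [c])))
      have a2 := Finset.card_image_le (s := Pal rm.reverse) (f := fun v => c :: (v ++ [c]))
      unfold SP
      omega
  · refine ⟨w1.length, w2.length, by simp, by simp, ?_, ?_⟩
    · have : (w1 ++ c :: w2).length - 1 - w2.length = w1.length := by simp
      rw [this]
      simp
    · have hl : (w1 ++ c :: w2).length - 1 - w1.length - w2.length = 0 := by simp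
      rw [hl]
      have hsub : (Pal (w1 ++ c :: w2)).filter (fun u => u.head? = some c) ⊆ {[c]} := by
        intro u hu
        rw [Finset.mem_filter, mem_Pal] at hu
        obtain ⟨⟨s1, _, s3⟩, s4⟩ := hu
        obtain ⟨u, rfl⟩ := List.head?_eq_some_iff.1 s4
        have s5 := sub_cons h1 s1
        rcases pal_shape s3 with rfl | ⟨v, rfl, hv⟩
        · simp
        · exact absurd (s5.subset (by simp)) h2
      simpa [h] using Finset.card_le_card hsub

lemma upper (n : ℕ) : ∀ w : List A, w.length = n → SP w + 2 ≤ h (n + 1) ∧
    ((2 * w.toFinset.card < n ∨ n + 2 < 2 * w.toFinset.card) → SP w + 2 < h (n + 1)) := by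
  induction n using Nat.strong_induction_on with
  | _ n ih =>
  intro w hw
  have L := letter w (fun v hv => (ih v.length (hw ▸ hv) v rfl).1)
  rw [hw] at L
  choose! i j hij hi hj hb using L
  have hs : SP w ≤ ∑ c ∈ w.toFinset, ((Pal w).filter (fun u => u.head? = some c)).card := by
    refine le_trans (Finset.card_le_card ?_) Finset.card_biUnion_le
    intro u hu
    obtain ⟨s1, s2, _⟩ := mem_Pal.1 hu
    obtain ⟨c, t, rfl⟩ := List.exists_cons_of_ne_nil s2
    exact Finset.mem_biUnion.2 ⟨c, List.mem_toFinset.2 (s1.subset (by simp)),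
      Finset.mem_filter.2 ⟨hu, rfl⟩⟩
  have ii : Set.InjOn i w.toFinset := by
    intro a ha b hb e
    have h1 := hi a (by simpa using ha)
    rw [e, hi b (by simpa using hb)] at h1
    exact (Option.some.inj h1).symm
  have ij : Set.InjOn j w.toFinset := by
    intro a ha b hb e
    have h1 := hj a (by simpa using ha)
    rw [e, hj b (by simpa using hb)] at h1
    exact (Option.some.inj h1).symm
  have s1 := sum_le _ (U_anti n) (w.toFinset.image i)
  rw [Finset.sum_image ii, Finset.card_image_of_injOn ii] at s1
  have s2 := sum_le _ (U_anti n) (w.toFinset.image j)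
  rw [Finset.sum_image ij, Finset.card_image_of_injOn ij] at s2
  have hT := T_le n w.toFinset.card
  have hle : ∀ c ∈ w.toFinset, 2 * ((Pal w).filter (fun u => u.head? = some c)).card ≤
      U n (i c) + U n (j c) := by
    intro c hc
    have hc' := List.mem_toFinset.1 hc
    have := hb c hc'
    have := (key n _ _ (hij c hc')).1
    omega
  have s3 := Finset.sum_le_sum hle
  rw [Finset.sum_add_distrib, ← Finset.mul_sum] at s3
  refine ⟨by omega, ?_⟩
  rintro (hq | hq)
  · have := hT.2 hq
    omega
  · have hex : ∃ c ∈ w.toFinset, i c + j c + 1 = n ∧ (i c + 2 ≤ j c ∨ j c + 2 ≤ i c) := by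
      by_contra hne
      push Not at hne
      have ik : Set.InjOn (fun c => n - 1 - j c) w.toFinset := by
        intro a ha b hb e
        have h1 := hj a (by simpa using ha)
        simp only at e
        rw [e, hj b (by simpa using hb)] at h1
        exact (Option.some.inj h1).symm
      have c1 := Finset.card_union_add_card_inter (w.toFinset.image i)
        (w.toFinset.image (fun c => n - 1 - j c))
      rw [Finset.card_image_of_injOn ii, Finset.card_image_of_injOn ik] at c1
      have c2 : (w.toFinset.image i ∪ w.toFinset.image (fun c => n - 1 - j c)) ⊆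
          Finset.range n := by
        intro x hx
        rcases Finset.mem_union.1 hx with hx | hx <;>
        · obtain ⟨c, hc, rfl⟩ := Finset.mem_image.1 hx
          have := hij c (List.mem_toFinset.1 hc)
          exact Finset.mem_range.2 (by omega)
      have c3 : (w.toFinset.image i ∩ w.toFinset.image (fun c => n - 1 - j c)) ⊆
          {n / 2, n / 2 - 1} := by
        intro x hx
        obtain ⟨x1, x2⟩ := Finset.mem_inter.1 hx
        obtain ⟨c, hc, rfl⟩ := Finset.mem_image.1 x1
        obtain ⟨d, hd, e⟩ := Finset.mem_image.1 x2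
        have h1 := hj d (List.mem_toFinset.1 hd)
        rw [e, hi c (List.mem_toFinset.1 hc)] at h1
        obtain rfl := Option.some.inj h1
        have := hij c (List.mem_toFinset.1 hc)
        have := hne c hc (by omega)
        simp only [Finset.mem_insert, Finset.mem_singleton]
        omega
      have c4 := Finset.card_le_card c2
      have c5 := (Finset.card_le_card c3).trans Finset.card_le_two
      rw [Finset.card_range] at c4
      omega
    obtain ⟨c, hc, e1, e2⟩ := hex
    have s4 := Finset.sum_lt_sum hle ⟨c, hc, by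
      have hc' := List.mem_toFinset.1 hc
      have := hb c hc'
      have := (key n _ _ (hij c hc')).2 e1 e2
      omega⟩
    rw [Finset.sum_add_distrib, ← Finset.mul_sum] at s4
    omega

def W : ℕ → List ℕ
  | 0 => []
  | 1 => [1]
  | n + 2 => (n + 2) :: (W n ++ [n + 2])

lemma W_spec : ∀ n, (W n).length = n ∧ (∀ x ∈ W n, x ≤ n) ∧ h (n + 1) ≤ SP (W n) + 2
  | 0 => by decide
  | 1 => by decide
  | n + 2 => by
    obtain ⟨a, b, c⟩ := W_spec n
    refine ⟨by simp [W, a], ?_, ?_⟩
    · intro x hx
      simp only [W, List.mem_cons, List.mem_append, List.not_mem_nil, or_false] at hx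
      rcases hx with rfl | hx | rfl
      · exact le_rfl
      · exact (b x hx).trans (by omega)
      · exact le_rfl
    · have hsub : Pal (W n) ∪ insert [n + 2]
          ((insert [] (Pal (W n))).image (fun v => (n + 2) :: (v ++ [n + 2]))) ⊆ Pal (W (n + 2)) := by
        intro u hu
        rw [mem_Pal]
        rcases Finset.mem_union.1 hu with hu | hu
        · obtain ⟨s1, s2, s3⟩ := mem_Pal.1 hu
          exact ⟨(s1.trans (List.sublist_append_left _ _)).cons _, s2, s3⟩
        · rcases Finset.mem_insert.1 hu with rfl | hu
          · exact ⟨by simp [W], by simp, by simp⟩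
          · obtain ⟨v, hv, rfl⟩ := Finset.mem_image.1 hu
            rcases Finset.mem_insert.1 hv with rfl | hv
            · exact ⟨by simp [W], by simp, by simp⟩
            · obtain ⟨s1, s2, s3⟩ := mem_Pal.1 hv
              exact ⟨(s1.append_right _).cons_cons _, by simp, by simp [s3]⟩
      have hd : Disjoint (Pal (W n)) (insert [n + 2]
          ((insert [] (Pal (W n))).image (fun v => (n + 2) :: (v ++ [n + 2])))) := by
        rw [Finset.disjoint_left]
        intro u hu hu'
        have : n + 2 ∈ u := by
          rcases Finset.mem_insert.1 hu' with rfl | hu'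
          · simp
          · obtain ⟨v, _, rfl⟩ := Finset.mem_image.1 hu'
            simp
        have := b _ ((mem_Pal.1 hu).1.subset this)
        omega
      have hc := Finset.card_le_card hsub
      rw [Finset.card_union_of_disjoint hd, Finset.card_insert_of_notMem (by simp),
        Finset.card_image_of_injective _ (fun v v' e => by simpa using e),
        Finset.card_insert_of_notMem (by simp [mem_Pal])] at hc
      rw [show n + 2 + 1 = n + 3 by ring, h]
      unfold SP at c ⊢
      omega

theorem result (n : ℕ) :
    (∃ w : List ℕ, w.length = n ∧ SP w = M n) ∧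
    ∀ (A : Type) [DecidableEq A] (w : List A), w.length = n → SP w ≤ M n ∧
      (SP w = M n → (n % 2 = 1 → w.toFinset.card = (n + 1) / 2) ∧
        (n % 2 = 0 → w.toFinset.card = n / 2 ∨ w.toFinset.card = n / 2 + 1)) := by
  have hM := M_eq n
  refine ⟨⟨W n, (W_spec n).1, ?_⟩, fun A _ w hw => ?_⟩
  · have h1 := (W_spec n).2.2
    have h2 := (upper n (W n) (W_spec n).1).1
    omega
  · have h2 := upper n w hw
    refine ⟨by omega, fun e => ?_⟩
    have : ¬ (2 * w.toFinset.card < n ∨ n + 2 < 2 * w.toFinset.card) := fun hh => by
      have := h2.2 hh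
      omega
    omega

end Pool.Agent.Results.MP_06621a_co.Max
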